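import Pool.Agent.IPR.Block

/-!
Repair: a near solution with margin becomes an exact solution with `2 p` fresh columns.
-/

set_option autoImplicit false
open Finset Real MeasureTheory

namespace Pool.Agent.IPR

open Pool.Agent.PC55 Pool.Agent.IP49.RC

section
variable {m : ℕ}

lemma sinh_ge {u : ℝ} (hu : 0 ≤ u) : u ≤ Real.sinh u := Real.self_le_sinh_iff.2 hu

/-- **repair from given sums** (margin `T`, quadratic deficit at most `(p/9)^2`) -/
theorem repair_sums (p : ℕ) (hp : 1 ≤ p) (S : Fin m → ℤ) (T : ℝ)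
    (hS : ∑ k, (max (T - (S k : ℝ)) 0) ^ 2 ≤ ((p : ℝ) / 9) ^ 2) :
    Pb (p + p) S ≤ Real.exp 7 * m / p * Real.exp (-(T / √((p : ℝ) + 1))) := by
  have hp1 : (1 : ℝ) ≤ p := by exact_mod_cast hp
  have hp0 : (0 : ℝ) < p := by linarith
  set K := √((p : ℝ) + 1) with hK
  have hK2 : K ^ 2 = p + 1 := Real.sq_sqrt (by linarith)
  have hK1 : 1 ≤ K := by rw [hK, Real.one_le_sqrt]; linarith
  have hK0 : 0 < K := by linarith
  set d : Fin m → ℝ := fun k => max (T - (S k : ℝ)) 0 with hd
  have hd0 : ∀ k, 0 ≤ d k := fun k => le_max_right _ _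
  have hn : nrm d ≤ p / 9 := by
    apply le_of_sq_le_sq _ (by positivity)
    rw [nrm_sq]
    exact hS
  refine (phase1 p p hp S d hd0).trans ?_
  rw [← hK]
  have hrow : ∀ k, Real.exp (-(S k : ℝ) / K)
      * (Real.cosh (1 / K) - Real.sinh (1 / K) * (2 / 9 * (d k / nrm d))) ^ p
      ≤ Real.exp (1 / 2) * Real.exp (-(T / K)) := by
    intro k
    set y := 2 / 9 * (d k / nrm d) with hy
    have hdk : d k / nrm d ≤ 1 := by
      rcases (nrm_nonneg d).eq_or_lt with h0 | hpos
      · rw [← h0, div_zero]; norm_num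
      rw [div_le_one hpos]
      apply le_of_sq_le_sq _ hpos.le
      rw [nrm_sq]
      exact Finset.single_le_sum (f := fun k => d k ^ 2) (fun _ _ => sq_nonneg _) (mem_univ k)
    have hy0 : 0 ≤ y := by
      have : 0 ≤ d k / nrm d := div_nonneg (hd0 k) (nrm_nonneg d)
      positivity
    have hy1 : y ≤ 1 := by rw [hy]; linarith
    -- the drift beats the deficit
    have hbeat : d k ≤ 6 / 10 * (p * y) := by
      rcases (nrm_nonneg d).eq_or_lt with h0 | hpos
      · have h1 : ∑ k, d k ^ 2 = 0 := by rw [← nrm_sq, ← h0]; ring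
        have h2 := (Finset.sum_eq_zero_iff_of_nonneg (fun k _ => sq_nonneg (d k))).1 h1 k
          (mem_univ k)
        have h3 : d k = 0 := by simpa using h2
        rw [h3]
        positivity
      · have h1 : 6 / 10 * (p * y) = (12 / 90) * p / nrm d * d k := by
          rw [hy]; field_simp; ring
        rw [h1]
        have h2 : 1 ≤ (12 / 90) * p / nrm d := by
          rw [le_div_iff₀ hpos]; linarith
        nlinarith [hd0 k]
    -- the factor
    have hρ : Real.cosh (1 / K) - Real.sinh (1 / K) * y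
        ≤ Real.exp (1 / (2 * K ^ 2) - 6 / 10 * (y / K)) := by
      have h1 := Real.cosh_le_exp_half_sq (1 / K)
      have e1 : (1 / K) ^ 2 / 2 = 1 / (2 * K ^ 2) := by field_simp
      rw [e1] at h1
      have h2 : 1 / K * y ≤ Real.sinh (1 / K) * y :=
        mul_le_mul_of_nonneg_right (sinh_ge (by positivity)) hy0
      have eE : Real.exp (1 / (2 * K ^ 2) - 6 / 10 * (y / K))
          = Real.exp (1 / (2 * K ^ 2)) * Real.exp (-(6 / 10 * (y / K))) := by
        rw [← Real.exp_add]; congr 1
      rw [eE]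
      set E := Real.exp (1 / (2 * K ^ 2)) with hE
      have hE0 : 0 < E := Real.exp_pos _
      have hE1 : E * (6 / 10) ≤ 1 := by
        have h3 : 1 / (2 * K ^ 2) ≤ 1 / 2 := by
          rw [div_le_div_iff₀ (by positivity) (by norm_num)]
          nlinarith
        have h4 : E ≤ Real.exp (1 / 2) := Real.exp_le_exp.2 h3
        have h5 : Real.exp (1 / 2) ≤ 10 / 6 := by
          have h6 := Real.exp_bound' (x := 1 / 2) (by norm_num) (by norm_num) (n := 4) (by norm_num)
          norm_num [Finset.sum_range_succ, Nat.factorial] at h6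
          linarith
        linarith
      have h3 := Real.add_one_le_exp (-(6 / 10 * (y / K)))
      have h4 : E * (1 - 6 / 10 * (y / K)) ≤ E * Real.exp (-(6 / 10 * (y / K))) :=
        mul_le_mul_of_nonneg_left (by linarith) hE0.le
      have h5 : E * (6 / 10) * (y / K) ≤ 1 * (y / K) :=
        mul_le_mul_of_nonneg_right hE1 (by positivity)
      have e2 : 1 / K * y = y / K := by ring
      rw [e2] at h2
      nlinarith
    have hρ0 : 0 ≤ Real.cosh (1 / K) - Real.sinh (1 / K) * y := by
      have h1 := mul_le_mul_of_nonneg_left hy1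
        (show 0 ≤ Real.sinh (1 / K) from Real.sinh_nonneg_iff.2 (by positivity))
      have h2 := Real.sinh_lt_cosh (1 / K)
      linarith
    have hpow := pow_le_pow_left₀ hρ0 hρ p
    rw [← Real.exp_nat_mul] at hpow
    calc Real.exp (-(S k : ℝ) / K) * (Real.cosh (1 / K) - Real.sinh (1 / K) * y) ^ p
        ≤ Real.exp (-(S k : ℝ) / K) * Real.exp (p * (1 / (2 * K ^ 2) - 6 / 10 * (y / K))) :=
          mul_le_mul_of_nonneg_left hpow (Real.exp_pos _).le
      _ = Real.exp (-(S k : ℝ) / K + p * (1 / (2 * K ^ 2) - 6 / 10 * (y / K))) := by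
          rw [Real.exp_add]
      _ ≤ Real.exp (1 / 2 + -(T / K)) := by
          apply Real.exp_le_exp.2
          have h1 : (p : ℝ) * (1 / (2 * K ^ 2)) ≤ 1 / 2 := by
            rw [mul_one_div, div_le_div_iff₀ (by positivity) (by norm_num)]
            linarith
          have h2 : T - (S k : ℝ) ≤ d k := le_max_left _ _
          have h3 : (T - (S k : ℝ)) / K ≤ (6 / 10 * (p * y)) / K :=
            div_le_div_of_nonneg_right (h2.trans hbeat) hK0.le
          have e1 : (6 / 10 * (p * y)) / K = p * (6 / 10 * (y / K)) := by ring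
          have e2 : (T - (S k : ℝ)) / K = T / K + -(S k : ℝ) / K := by ring
          rw [e1, e2] at h3
          linarith
      _ = _ := by rw [Real.exp_add]
  calc Real.exp 6 / p * ∑ k, Real.exp (-(S k : ℝ) / K)
        * (Real.cosh (1 / K) - Real.sinh (1 / K) * (2 / 9 * (d k / nrm d))) ^ p
      ≤ Real.exp 6 / p * ∑ _k : Fin m, Real.exp (1 / 2) * Real.exp (-(T / K)) :=
        mul_le_mul_of_nonneg_left (Finset.sum_le_sum fun k _ => hrow k) (by positivity)
    _ = (Real.exp 6 * Real.exp (1 / 2)) * m / p * Real.exp (-(T / K)) := by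
        rw [Finset.sum_const, Finset.card_univ, Fintype.card_fin, nsmul_eq_mul]; ring
    _ ≤ Real.exp 7 * m / p * Real.exp (-(T / K)) := by
        rw [← Real.exp_add]
        have : Real.exp (6 + 1 / 2) ≤ Real.exp 7 := Real.exp_le_exp.2 (by norm_num)
        gcongr

/-- **repair**: probability form. The first `n` columns have a near solution with margin `κ`
and quadratic deficit `ε n` with high probability. -/
theorem repair_prob (n p : ℕ) (hp : 1 ≤ p) (κ ε : ℝ) (hε : ε * n * n ≤ ((p : ℝ) / 9) ^ 2) :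
    Pb (n + (p + p)) (fun _ : Fin m => 0)
      ≤ (1 - (rad m n).real {A | Near κ ε A})
        + Real.exp 7 * m / p * Real.exp (-(κ * √(n : ℝ) / √((p : ℝ) + 1))) := by
  classical
  set ω : (Fin n → Fin m → Bool) → (Fin n → Bool) := fun W =>
    if h : Near κ ε (fun (k : Fin m) (i : Fin n) => sg (W i k)) then h.choose else fun _ => true
    with hω
  set b := Real.exp 7 * m / p * Real.exp (-(κ * √(n : ℝ) / √((p : ℝ) + 1))) with hb
  have hb0 : 0 ≤ b := by positivity
  have hW : ∀ W : Fin n → Fin m → Bool, Pb (p + p) (blk (fun _ => 0) W (ω W))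
      ≤ (if Near κ ε (fun (k : Fin m) (i : Fin n) => sg (W i k)) then 0 else 1) + b := by
    intro W
    by_cases h : Near κ ε (fun (k : Fin m) (i : Fin n) => sg (W i k))
    · rw [if_pos h, zero_add]
      have hw : ω W = h.choose := by simp only [hω]; rw [dif_pos h]
      have hspec := h.choose_spec
      rw [← hw] at hspec
      refine (repair_sums p hp _ (κ * √(n : ℝ)) ?_).trans (by rw [hb])
      have e : ∀ k, (max (κ * √(n : ℝ) - ((blk (fun _ : Fin m => 0) W (ω W) k : ℤ) : ℝ)) 0) ^ 2
          = n * (max (κ - yv (fun (k : Fin m) (i : Fin n) => sg (W i k)) (ω W) k) 0) ^ 2 := by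
        intro k
        rcases Nat.eq_zero_or_pos n with h0 | hpos
        · subst h0
          simp [blk]
        have hn0 : (0 : ℝ) < n := by exact_mod_cast hpos
        have hs0 : 0 < √(n : ℝ) := Real.sqrt_pos.2 hn0
        have hs2 : √(n : ℝ) ^ 2 = n := Real.sq_sqrt hn0.le
        have e1 : ((blk (fun _ : Fin m => 0) W (ω W) k : ℤ) : ℝ)
            = √(n : ℝ) * yv (fun (k : Fin m) (i : Fin n) => sg (W i k)) (ω W) k := by
          unfold blk yv
          push_cast
          rw [zero_add, mul_div_cancel₀ _ hs0.ne']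
          simp only [zs_cast]
        rw [e1]
        have e2 : κ * √(n : ℝ) - √(n : ℝ) * yv (fun (k : Fin m) (i : Fin n) => sg (W i k)) (ω W) k
            = √(n : ℝ) * (κ - yv (fun (k : Fin m) (i : Fin n) => sg (W i k)) (ω W) k) := by ring
        rw [e2]
        have e3 : max (√(n : ℝ) * (κ - yv (fun (k : Fin m) (i : Fin n) => sg (W i k)) (ω W) k)) 0
            = √(n : ℝ) * max (κ - yv (fun (k : Fin m) (i : Fin n) => sg (W i k)) (ω W) k) 0 := by
          rw [mul_max_of_nonneg _ _ hs0.le, mul_zero]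
        rw [e3, mul_pow, hs2]
      rw [Finset.sum_congr rfl fun k _ => e k, ← Finset.mul_sum]
      refine le_trans ?_ hε
      have := mul_le_mul_of_nonneg_left hspec (show (0 : ℝ) ≤ n from Nat.cast_nonneg n)
      linarith
    · rw [if_neg h]
      linarith [Pb_le_one (p + p) (blk (fun _ : Fin m => 0) W (ω W))]
  refine (Pb_append n (p + p) (fun _ : Fin m => 0) ω).trans ?_
  have h1 : (∑ W : Fin n → Fin m → Bool, Pb (p + p) (blk (fun _ => 0) W (ω W)))
      ≤ ∑ W : Fin n → Fin m → Bool,
        ((if Near κ ε (fun (k : Fin m) (i : Fin n) => sg (W i k)) then 0 else 1) + b) :=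
    Finset.sum_le_sum fun W _ => hW W
  refine (div_le_div_of_nonneg_right h1 (by positivity)).trans ?_
  -- the counting average
  have h2 := rad_real m n {A | Near κ ε A} (measurableSet_near κ ε)
  set T := Finset.univ.filter (fun V : Fin m → Fin n → Bool =>
    (fun k i => sg (V k i)) ∈ {A : Fin m → Fin n → ℝ | Near κ ε A}) with hT
  have hcard : ((Finset.univ.filter (fun W : Fin n → Fin m → Bool =>
      Near κ ε (fun (k : Fin m) (i : Fin n) => sg (W i k)))).card : ℝ) = (T.card : ℝ) := by
    norm_cast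
    apply Finset.card_equiv (Equiv.piComm (fun (_ : Fin n) (_ : Fin m) => Bool))
    intro W
    rw [Finset.mem_filter, hT, Finset.mem_filter]
    exact ⟨fun h => ⟨mem_univ _, h.2⟩, fun h => ⟨mem_univ _, h.2⟩⟩
  have hN : (Fintype.card (Fin n → Fin m → Bool) : ℝ) = 2 ^ (n * m) := by
    simp [← pow_mul, mul_comm]
  rw [Finset.sum_add_distrib, Finset.sum_const, Finset.card_univ, nsmul_eq_mul, hN]
  have h3 : (∑ W : Fin n → Fin m → Bool,
      (if Near κ ε (fun (k : Fin m) (i : Fin n) => sg (W i k)) then (0 : ℝ) else 1))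
      = 2 ^ (n * m) - T.card := by
    rw [← hcard, ← hN]
    have h4 : ∀ W : Fin n → Fin m → Bool,
        (if Near κ ε (fun (k : Fin m) (i : Fin n) => sg (W i k)) then (0 : ℝ) else 1)
        = 1 - (if Near κ ε (fun (k : Fin m) (i : Fin n) => sg (W i k)) then (1 : ℝ) else 0) := by
      intro W; split_ifs <;> norm_num
    rw [Finset.sum_congr rfl fun W _ => h4 W, Finset.sum_sub_distrib, Finset.sum_boole]
    simp
  rw [h3, h2, add_div, sub_div, div_self (by positivity)]
  have h5 : (2 : ℝ) ^ (n * m) * b / 2 ^ (n * m) = b := by field_simp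
  rw [h5]

end

end Pool.Agent.IPR
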