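import Pool.Agent.IPR.Phase
import Pool.Agent.IP49.R0

/-!
Block reveal of columns, and the Rademacher law as a counting average.
-/

set_option autoImplicit false
open Finset Real MeasureTheory

namespace Pool.Agent.IPR

open Pool.Agent.PC55 Pool.Agent.IP49.RC

section
variable {m : ℕ}

/-- sums after a block of columns -/
def blk {n : ℕ} (S : Fin m → ℤ) (W : Fin n → Fin m → Bool) (w : Fin n → Bool) : Fin m → ℤ :=
  fun k => S k + ∑ i, zs (W i k) * zs (w i)

/-- reveal `n` columns at once -/
theorem Pb_append (n R : ℕ) (S : Fin m → ℤ) (ω : (Fin n → Fin m → Bool) → (Fin n → Bool)) :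
    Pb (n + R) S ≤ (∑ W : Fin n → Fin m → Bool, Pb R (blk S W (ω W))) / 2 ^ (n * m) := by
  classical
  have h : (∑ W : Fin (n + R) → Fin m → Bool, if Bad (n + R) S W then (1 : ℝ) else 0)
      ≤ ∑ W : Fin n → Fin m → Bool, ∑ W' : Fin R → Fin m → Bool,
        if Bad R (blk S W (ω W)) W' then (1 : ℝ) else 0 := by
    rw [← (Fin.appendEquiv n R).sum_comp, Fintype.sum_prod_type]
    apply Finset.sum_le_sum
    intro W _
    apply Finset.sum_le_sum
    intro W' _
    by_cases hB : Bad (n + R) S ((Fin.appendEquiv n R) (W, W'))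
    · have hB' : Bad R (blk S W (ω W)) W' := by
        intro w
        obtain ⟨k, hk⟩ := hB (Fin.append (ω W) w)
        refine ⟨k, ?_⟩
        rw [Fin.sum_univ_add] at hk
        simp only [Fin.appendEquiv, Equiv.coe_fn_mk, Fin.append_left, Fin.append_right] at hk
        unfold blk
        linarith
      rw [if_pos hB, if_pos hB']
    · rw [if_neg hB]
      split_ifs <;> norm_num
  have e : (2 : ℝ) ^ ((n + R) * m) = 2 ^ (R * m) * 2 ^ (n * m) := by rw [← pow_add]; congr 1; ring
  unfold Pb
  rw [e, ← Finset.sum_div, div_div]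
  exact div_le_div_of_nonneg_right h (by positivity)

/-- more patterns: larger failure probability -/
theorem Pb_mono_m {m' : ℕ} (h : m ≤ m') (n : ℕ) :
    Pb n (fun _ : Fin m => 0) ≤ Pb n (fun _ : Fin m' => 0) := by
  classical
  obtain ⟨l, rfl⟩ := Nat.exists_eq_add_of_le h
  set e : (Fin n → (Fin m → Bool) × (Fin l → Bool)) ≃ (Fin n → Fin (m + l) → Bool) :=
    Equiv.arrowCongr (Equiv.refl _) (Fin.appendEquiv m l) with he
  set e' : (Fin n → (Fin m → Bool) × (Fin l → Bool)) ≃
      (Fin n → Fin m → Bool) × (Fin n → Fin l → Bool) :=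
    Equiv.arrowProdEquivProdArrow (Fin n) (fun _ => Fin m → Bool) (fun _ => Fin l → Bool) with he'
  have h1 : (2 : ℝ) ^ (n * l) * (∑ W : Fin n → Fin m → Bool, if Bad n (fun _ => 0) W then (1 : ℝ) else 0)
      ≤ ∑ W : Fin n → Fin (m + l) → Bool, if Bad n (fun _ => 0) W then (1 : ℝ) else 0 := by
    rw [← e.sum_comp, ← e'.symm.sum_comp, Fintype.sum_prod_type, Finset.mul_sum]
    apply Finset.sum_le_sum
    intro W _
    have hc : (2 : ℝ) ^ (n * l) * (if Bad n (fun _ : Fin m => 0) W then (1 : ℝ) else 0)
        = ∑ _W' : Fin n → Fin l → Bool, (if Bad n (fun _ : Fin m => 0) W then (1 : ℝ) else 0) := by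
      rw [Finset.sum_const, nsmul_eq_mul, Finset.card_univ]
      congr 1
      simp [← pow_mul, mul_comm]
    rw [hc]
    apply Finset.sum_le_sum
    intro W' _
    by_cases hB : Bad n (fun _ : Fin m => 0) W
    · have hB' : Bad n (fun _ : Fin (m + l) => 0) (e (e'.symm (W, W'))) := by
        intro w
        obtain ⟨k, hk⟩ := hB w
        refine ⟨Fin.castAdd l k, ?_⟩
        have : ∀ i, (e (e'.symm (W, W'))) i (Fin.castAdd l k) = W i k := by
          intro i
          show Fin.append (W i) (W' i) (Fin.castAdd l k) = W i k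
          rw [Fin.append_left]
        simp only [this]
        exact hk
      rw [if_pos hB, if_pos hB']
    · rw [if_neg hB]
      split_ifs <;> norm_num
  unfold Pb
  have e2 : (2 : ℝ) ^ (n * (m + l)) = 2 ^ (n * l) * 2 ^ (n * m) := by
    rw [← pow_add]; congr 1; ring
  rw [e2, div_le_div_iff₀ (by positivity) (by positivity)]
  have h2 := mul_le_mul_of_nonneg_right h1 (show (0 : ℝ) ≤ 2 ^ (n * m) by positivity)
  linarith

end

/-- the uniform law on bits -/
noncomputable def ub : Measure Bool :=
  (1 / 2 : ENNReal) • Measure.dirac true + (1 / 2 : ENNReal) • Measure.dirac false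

instance : IsProbabilityMeasure ub := by
  constructor
  unfold ub
  simp [ENNReal.inv_two_add_inv_two]

lemma rad1_eq : rad1 = ub.map sg := by
  unfold rad1 ub
  have hm : Measurable sg := measurable_of_finite _
  rw [Measure.map_add _ _ hm, Measure.map_smul, Measure.map_smul, Measure.map_dirac' hm,
    Measure.map_dirac' hm]
  simp [sg]

/-- the Rademacher law of a measurable set is a counting average -/
theorem rad_real (m n : ℕ) (s : Set (Fin m → Fin n → ℝ)) (hs : MeasurableSet s) [DecidablePred (· ∈ s)] :
    (rad m n).real s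
      = ((Finset.univ.filter (fun V : Fin m → Fin n → Bool => (fun k i => sg (V k i)) ∈ s)).card : ℝ)
        / 2 ^ (n * m) := by
  classical
  have hm : Measurable sg := measurable_of_finite _
  haveI : IsProbabilityMeasure (ub.map sg) := Measure.isProbabilityMeasure_map hm.aemeasurable
  have h1 : (Measure.pi fun _ : Fin n => rad1)
      = (Measure.pi fun _ : Fin n => ub).map (fun x i => sg (x i)) := by
    rw [Measure.pi_map_pi (fun _ => hm.aemeasurable)]
    simp only [rad1_eq]
  have hm2 : Measurable (fun (x : Fin n → Bool) (i : Fin n) => sg (x i)) := measurable_of_finite _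
  have h2 : rad m n = (Measure.pi fun _ : Fin m => Measure.pi fun _ : Fin n => ub).map
      (fun V k i => sg (V k i)) := by
    unfold rad
    rw [h1]
    haveI : IsProbabilityMeasure ((Measure.pi fun _ : Fin n => ub).map (fun x i => sg (x i))) :=
      Measure.isProbabilityMeasure_map hm2.aemeasurable
    rw [Measure.pi_map_pi (fun _ => hm2.aemeasurable)]
  have hm3 : Measurable (fun (V : Fin m → Fin n → Bool) (k : Fin m) (i : Fin n) => sg (V k i)) :=
    measurable_of_finite _
  rw [h2, Measure.real, Measure.map_apply hm3 hs]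
  have hub : ∀ b : Bool, ub {b} = 2⁻¹ := by
    intro b
    unfold ub
    cases b <;> simp
  have hsing : ∀ V : Fin m → Fin n → Bool,
      (Measure.pi fun _ : Fin m => Measure.pi fun _ : Fin n => ub) {V} = (2⁻¹) ^ (n * m) := by
    intro V
    rw [Measure.pi_singleton]
    simp only [Measure.pi_singleton, hub, Finset.prod_const, Finset.card_univ, Fintype.card_fin]
    rw [← pow_mul]
  set T := Finset.univ.filter (fun V : Fin m → Fin n → Bool => (fun k i => sg (V k i)) ∈ s) with hT
  have hpre : (fun (V : Fin m → Fin n → Bool) (k : Fin m) (i : Fin n) => sg (V k i)) ⁻¹' s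
      = (T : Set (Fin m → Fin n → Bool)) := by
    ext V; simp [hT]
  rw [hpre, ← sum_measure_singleton]
  rw [Finset.sum_congr rfl fun V _ => hsing V, Finset.sum_const, nsmul_eq_mul,
    ENNReal.toReal_mul]
  simp [div_eq_mul_inv]

end Pool.Agent.IPR
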