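import Pool.Agent.IPR.Sched

/-!
Repair, first phase: voting with fixed weights `d` and a clamped random choice.
-/

set_option autoImplicit false
open Finset Real

namespace Pool.Agent.IPR

open Pool.Agent.PC55

/-- clamp to `[-1,1]` -/
noncomputable def cl (x : ℝ) : ℝ := max (-1) (min 1 x)

lemma cl_le_one (x : ℝ) : cl x ≤ 1 := max_le (by norm_num) (min_le_left _ _)
lemma neg_one_le_cl (x : ℝ) : -1 ≤ cl x := le_max_left _ _
lemma cl_mono {x y : ℝ} (h : x ≤ y) : cl x ≤ cl y :=
  max_le_max le_rfl (min_le_min le_rfl h)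
lemma cl_of_abs_le {x : ℝ} (h : |x| ≤ 1) : cl x = x := by
  obtain ⟨h1, h2⟩ := abs_le.1 h
  unfold cl
  rw [min_eq_right h2, max_eq_right h1]

section
variable {m : ℕ}

lemma lin_update (d : Fin m → ℝ) (k : Fin m) (v : Fin m → Bool) :
    lin (Function.update d k 0) v = lin d v - d k * sg (v k) := by
  unfold lin
  rw [← Finset.add_sum_erase _ _ (mem_univ k), ← Finset.add_sum_erase _ _ (mem_univ k)]
  rw [Function.update_self]
  have : ∀ i ∈ univ.erase k, Function.update d k 0 i * sg (v i) = d i * sg (v i) := by
    intro i hi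
    rw [Function.update_of_ne (Finset.ne_of_mem_erase hi)]
  rw [Finset.sum_congr rfl this]
  ring

lemma nrm_update_le (d : Fin m → ℝ) (k : Fin m) : nrm (Function.update d k 0) ^ 2 ≤ nrm d ^ 2 := by
  rw [nrm_sq, nrm_sq]
  apply Finset.sum_le_sum
  intro i _
  by_cases h : i = k
  · subst h; rw [Function.update_self]; nlinarith [sq_nonneg (d i)]
  · rw [Function.update_of_ne h]

/-- the difference of clamps -/
lemma cl_diff {A e σ : ℝ} (he : 0 ≤ e) (hσ : 0 < σ) (h4 : 4 * e ≤ σ) :
    2 * e / σ * (1 - A ^ 2 / (9 * (σ / 4) ^ 2)) ≤ cl ((A + e) / σ) - cl ((A - e) / σ) := by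
  have hnn : 0 ≤ cl ((A + e) / σ) - cl ((A - e) / σ) := by
    have : cl ((A - e) / σ) ≤ cl ((A + e) / σ) :=
      cl_mono (div_le_div_of_nonneg_right (by linarith) hσ.le)
    linarith
  by_cases h : |A| + e ≤ σ
  · have h1 : cl ((A + e) / σ) = (A + e) / σ := by
      apply cl_of_abs_le
      rw [abs_div, abs_of_pos hσ, div_le_one hσ]
      calc |A + e| ≤ |A| + |e| := abs_add_le _ _
        _ = |A| + e := by rw [abs_of_nonneg he]
        _ ≤ σ := h
    have h2 : cl ((A - e) / σ) = (A - e) / σ := by
      apply cl_of_abs_le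
      rw [abs_div, abs_of_pos hσ, div_le_one hσ]
      calc |A - e| ≤ |A| + |e| := abs_sub _ _
        _ = |A| + e := by rw [abs_of_nonneg he]
        _ ≤ σ := h
    rw [h1, h2]
    have h3 : (A + e) / σ - (A - e) / σ = 2 * e / σ := by ring
    rw [h3]
    have h4 : 0 ≤ A ^ 2 / (9 * (σ / 4) ^ 2) := by positivity
    have h5 : 0 ≤ 2 * e / σ := by positivity
    nlinarith
  · push Not at h
    refine le_trans ?_ hnn
    have h5 : 0 ≤ 2 * e / σ := by positivity
    have h6 : 1 ≤ A ^ 2 / (9 * (σ / 4) ^ 2) := by
      rw [le_div_iff₀ (by positivity), one_mul]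
      have : 3 * (σ / 4) ≤ |A| := by linarith
      calc 9 * (σ / 4) ^ 2 = (3 * (σ / 4)) ^ 2 := by ring
        _ ≤ |A| ^ 2 := pow_le_pow_left₀ (by positivity) this 2
        _ = A ^ 2 := sq_abs A
    nlinarith

/-- **the drift** of the clamped choice -/
theorem drift (d : Fin m → ℝ) (hd : ∀ k, 0 ≤ d k) (k : Fin m) :
    2 / 9 * (d k / nrm d) ≤ Ex (fun v => cl (lin d v / (4 * nrm d)) * sg (v k)) := by
  rcases (nrm_nonneg d).eq_or_lt with h0 | hpos
  · have hc : cl 0 = 0 := cl_of_abs_le (by norm_num)
    rw [← h0]
    simp only [mul_zero, div_zero, hc, zero_mul, Ex_const, le_refl]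
  set σ := 4 * nrm d with hσ
  have hσ0 : 0 < σ := by positivity
  have hdk : d k ≤ nrm d := by
    apply le_of_sq_le_sq _ hpos.le
    rw [nrm_sq]
    exact Finset.single_le_sum (f := fun k => d k ^ 2) (fun _ _ => sq_nonneg _) (mem_univ k)
  set f : (Fin m → Bool) → ℝ := fun v => cl (lin d v / σ) * sg (v k) with hf
  have h1 : Ex f = Ex (fun v => (f v + f (flip {k} v)) / 2) := by
    have h2 := Ex_flip {k} f
    have e : (fun v => (f v + f (flip {k} v)) / 2) = fun v => 1 / 2 * (f v + f (flip {k} v)) := by
      funext v; ring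
    rw [e, Ex_mul, Ex_add]
    have h3 : Ex (fun v => f (flip {k} v)) = Ex f := h2
    rw [h3]; ring
  have h2 : ∀ v, d k / σ * (1 - lin (Function.update d k 0) v ^ 2 / (9 * nrm d ^ 2))
      ≤ (f v + f (flip {k} v)) / 2 := by
    intro v
    have hA := cl_diff (A := lin (Function.update d k 0) v) (hd k) hσ0 (by linarith)
    have hs4 : σ / 4 = nrm d := by rw [hσ]; ring
    rw [hs4] at hA
    have hfl : (flip {k} v) k = !(v k) := by
      unfold Pool.Agent.PC55.flip
      simp
    have hlin2 : lin (Function.update d k 0) (flip {k} v) = lin (Function.update d k 0) v := by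
      unfold lin
      apply Finset.sum_congr rfl
      intro i _
      by_cases h : i = k
      · subst h; rw [Function.update_self]; ring
      · have : (flip {k} v) i = v i := by
          unfold Pool.Agent.PC55.flip
          simp [h]
        rw [this]
    have e1 : lin d v = lin (Function.update d k 0) v + d k * sg (v k) := by
      rw [lin_update]; ring
    have e2 : lin d (flip {k} v) = lin (Function.update d k 0) v - d k * sg (v k) := by
      have := lin_update d k (flip {k} v)
      rw [hlin2, hfl, sg_not] at this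
      linarith
    have e3 : f v + f (flip {k} v)
        = cl ((lin (Function.update d k 0) v + d k) / σ)
          - cl ((lin (Function.update d k 0) v - d k) / σ) := by
      simp only [hf]
      rw [e1, e2, hfl, sg_not]
      cases hvk : v k with
      | true =>
        have : sg true = 1 := by unfold sg; simp
        rw [this]; ring_nf
      | false =>
        have : sg false = -1 := by unfold sg; simp
        rw [this]; ring_nf
    rw [e3]
    have e4 : d k / σ * (1 - lin (Function.update d k 0) v ^ 2 / (9 * nrm d ^ 2))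
        = (2 * d k / σ * (1 - lin (Function.update d k 0) v ^ 2 / (9 * nrm d ^ 2))) / 2 := by ring
    rw [e4]
    exact div_le_div_of_nonneg_right hA (by norm_num)
  rw [h1]
  refine le_trans ?_ (Ex_mono h2)
  have h3 : (fun v => d k / σ * (1 - lin (Function.update d k 0) v ^ 2 / (9 * nrm d ^ 2)))
      = fun v => d k / σ - d k / σ / (9 * nrm d ^ 2) * (lin (Function.update d k 0) v ^ 2) := by
    funext v; ring
  rw [h3, Ex_sub, Ex_const, Ex_mul, Ex_sq]
  have h4 := nrm_update_le d k
  have hn2 : 0 < nrm d ^ 2 := by positivity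
  have h5 : d k / σ / (9 * nrm d ^ 2) * nrm (Function.update d k 0) ^ 2
      ≤ d k / σ / (9 * nrm d ^ 2) * nrm d ^ 2 :=
    mul_le_mul_of_nonneg_left h4 (div_nonneg (div_nonneg (hd k) hσ0.le) (by positivity))
  have h6 : d k / σ / (9 * nrm d ^ 2) * nrm d ^ 2 = d k / σ / 9 := by
    field_simp
  have h7 : 2 / 9 * (d k / nrm d) = d k / σ - d k / σ / 9 := by
    rw [hσ]; field_simp; ring
  linarith

/-- **first repair phase** -/
theorem phase1 (R p : ℕ) (hR : 1 ≤ R) (S : Fin m → ℤ) (d : Fin m → ℝ) (hd : ∀ k, 0 ≤ d k) :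
    Pb (R + p) S ≤ Real.exp 6 / R * ∑ k, Real.exp (-(S k : ℝ) / √((R : ℝ) + 1))
      * (Real.cosh (1 / √((R : ℝ) + 1))
          - Real.sinh (1 / √((R : ℝ) + 1)) * (2 / 9 * (d k / nrm d))) ^ p := by
  have hR1 : (1 : ℝ) ≤ R := by exact_mod_cast hR
  have hR0 : (0 : ℝ) < R := by linarith
  set K := √((R : ℝ) + 1) with hK
  have hK0 : 0 < K := Real.sqrt_pos.2 (by linarith)
  set ρ : Fin m → ℝ := fun k => Real.cosh (1 / K) - Real.sinh (1 / K) * (2 / 9 * (d k / nrm d))
    with hρ
  have hsinh0 : 0 ≤ Real.sinh (1 / K) := Real.sinh_nonneg_iff.2 (by positivity)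
  have hρ0 : ∀ k, 0 ≤ ρ k := by
    intro k
    have hdk : d k / nrm d ≤ 1 := by
      rcases (nrm_nonneg d).eq_or_lt with h0 | hpos
      · rw [← h0, div_zero]; norm_num
      rw [div_le_one hpos]
      apply le_of_sq_le_sq _ hpos.le
      rw [nrm_sq]
      exact Finset.single_le_sum (f := fun k => d k ^ 2) (fun _ _ => sq_nonneg _) (mem_univ k)
    have h1 : 2 / 9 * (d k / nrm d) ≤ 1 := by linarith
    have h2 := mul_le_mul_of_nonneg_left h1 hsinh0
    have h3 := Real.sinh_lt_cosh (1 / K)
    simp only [hρ]
    linarith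
  set B : ℕ → (Fin m → ℤ) → ℝ := fun r S =>
    Real.exp 6 / R * ∑ k, Real.exp (-(S k : ℝ) / K) * ρ k ^ (r - R) with hB
  have key := Pb_bound B R (R + p) (Nat.le_add_right _ _)
    (by
      intro S
      simp only [hB, Nat.sub_self, pow_zero, mul_one]
      exact P2 R hR S)
    (by
      intro r hr hrn S _
      refine ⟨fun v => decide (B r (move S true v) ≤ B r (move S false v)), ?_⟩
      -- compare with the random choice
      have h1 : ∀ v, B r (move S (decide (B r (move S true v) ≤ B r (move S false v))) v)
          ≤ (1 + cl (lin d v / (4 * nrm d))) / 2 * B r (move S true v)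
            + (1 - cl (lin d v / (4 * nrm d))) / 2 * B r (move S false v) := by
        intro v
        have hc1 := cl_le_one (lin d v / (4 * nrm d))
        have hc2 := neg_one_le_cl (lin d v / (4 * nrm d))
        by_cases h : B r (move S true v) ≤ B r (move S false v)
        · rw [decide_eq_true h]; nlinarith
        · rw [decide_eq_false h]
          push Not at h
          nlinarith
      refine (Ex_mono h1).trans ?_
      have h2 : ∀ v, (1 + cl (lin d v / (4 * nrm d))) / 2 * B r (move S true v)
            + (1 - cl (lin d v / (4 * nrm d))) / 2 * B r (move S false v)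
          = ∑ k, Real.exp 6 / R * (Real.exp (-(S k : ℝ) / K) * ρ k ^ (r - R))
            * (Real.cosh (1 / K) - Real.sinh (1 / K) *
                (cl (lin d v / (4 * nrm d)) * sg (v k))) := by
        intro v
        set c := cl (lin d v / (4 * nrm d))
        simp only [hB]
        rw [Finset.mul_sum, Finset.mul_sum, Finset.mul_sum, Finset.mul_sum,
          ← Finset.sum_add_distrib]
        apply Finset.sum_congr rfl
        intro k _
        have e : ∀ b : Bool, Real.exp (-((move S b v k : ℤ) : ℝ) / K)
            = Real.exp (-(S k : ℝ) / K) * (Real.cosh (1 / K) - sg b * sg (v k) * Real.sinh (1 / K)) := by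
          intro b
          rw [← exp_sg, ← Real.exp_add]
          congr 1
          unfold move
          push_cast
          rw [zs_cast, zs_cast]
          ring
        rw [e, e]
        have e1 : sg true = 1 := by unfold sg; simp
        have e2 : sg false = -1 := by unfold sg; simp
        rw [e1, e2]
        ring
      have h3 : Ex (fun v => (1 + cl (lin d v / (4 * nrm d))) / 2 * B r (move S true v)
            + (1 - cl (lin d v / (4 * nrm d))) / 2 * B r (move S false v))
          = ∑ k, Real.exp 6 / R * (Real.exp (-(S k : ℝ) / K) * ρ k ^ (r - R))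
            * (Real.cosh (1 / K) - Real.sinh (1 / K) *
                Ex (fun v => cl (lin d v / (4 * nrm d)) * sg (v k))) := by
        rw [show (fun v => (1 + cl (lin d v / (4 * nrm d))) / 2 * B r (move S true v)
            + (1 - cl (lin d v / (4 * nrm d))) / 2 * B r (move S false v)) = fun v =>
            ∑ k ∈ univ, Real.exp 6 / R * (Real.exp (-(S k : ℝ) / K) * ρ k ^ (r - R))
            * (Real.cosh (1 / K) - Real.sinh (1 / K) *
                (cl (lin d v / (4 * nrm d)) * sg (v k))) from funext h2]
        rw [Ex_sum]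
        apply Finset.sum_congr rfl
        intro k _
        rw [Ex_mul, Ex_sub, Ex_const, Ex_mul]
      rw [h3]
      simp only [hB]
      rw [Finset.mul_sum]
      apply Finset.sum_le_sum
      intro k _
      have h4 := drift d hd k
      have h5 := mul_le_mul_of_nonneg_left h4 hsinh0
      have hsub : r + 1 - R = (r - R) + 1 := by omega
      rw [hsub, pow_succ]
      have h6 : Real.cosh (1 / K) - Real.sinh (1 / K) *
          Ex (fun v => cl (lin d v / (4 * nrm d)) * sg (v k)) ≤ ρ k := by
        simp only [hρ]; linarith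
      have h7 : 0 ≤ Real.exp 6 / R * (Real.exp (-(S k : ℝ) / K) * ρ k ^ (r - R)) := by
        have := hρ0 k
        positivity
      calc Real.exp 6 / R * (Real.exp (-(S k : ℝ) / K) * ρ k ^ (r - R))
            * (Real.cosh (1 / K) - Real.sinh (1 / K) *
                Ex (fun v => cl (lin d v / (4 * nrm d)) * sg (v k)))
          ≤ Real.exp 6 / R * (Real.exp (-(S k : ℝ) / K) * ρ k ^ (r - R)) * ρ k :=
            mul_le_mul_of_nonneg_left h6 h7
        _ = _ := by ring)
  have h := key S
  simp only [hB, Nat.add_sub_cancel_left] at h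
  exact h

end

end Pool.Agent.IPR
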