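import Pool.Agent.PC55.Main

/-!
Repair, second phase: with `R` fresh columns and sums `S_k` the failure probability is at most
`(e^6 / R) ∑ exp (- S_k / √(R+1))`.
-/

set_option autoImplicit false
open Finset Real

namespace Pool.Agent.IPR

open Pool.Agent.PC55

/-- temperature -/
noncomputable def rK (r : ℕ) : ℝ := √((r : ℝ) + 1)

/-- threshold -/
noncomputable def rW (R r : ℕ) : ℝ :=
  Real.log R + √(r : ℝ) + 4 * √(√(R : ℝ)) * √(√(r : ℝ))

lemma rK_one_le (r : ℕ) : 1 ≤ rK r := by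
  unfold rK
  rw [Real.one_le_sqrt]
  have : (0 : ℝ) ≤ r := Nat.cast_nonneg r
  linarith

lemma rK_lt (r : ℕ) : rK r < rK (r + 1) := by
  unfold rK
  apply Real.sqrt_lt_sqrt (by positivity)
  push_cast
  linarith

lemma cosh_le_aux {u : ℝ} (hu0 : 0 ≤ u) (hu : u ≤ 1) : Real.cosh u - 1 ≤ 3 / 4 * u ^ 2 := by
  have h1 := Real.cosh_le_exp_half_sq u
  have hx : u ^ 2 / 2 ≤ 1 / 2 := by nlinarith
  have hx0 : 0 ≤ u ^ 2 / 2 := by positivity
  have h2 : Real.exp (u ^ 2 / 2) ≤ 1 + u ^ 2 / 2 + (u ^ 2 / 2) ^ 2 := by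
    have := Real.exp_bound' hx0 (by linarith) (n := 2) (by norm_num)
    norm_num [Finset.sum_range_succ, Nat.factorial] at this
    nlinarith
  nlinarith

/-- monotonicity of `x ↦ x (log (c x) - 1)` -/
lemma xlog_mono {c x y : ℝ} (hc : 0 < c) (hx : 0 < x) (hxy : x ≤ y) (hcx : 1 ≤ c * x) :
    x * (Real.log (c * x) - 1) ≤ y * (Real.log (c * y) - 1) := by
  have hy : 0 < y := lt_of_lt_of_le hx hxy
  have h1 : Real.log (c * y) = Real.log (c * x) + Real.log (y / x) := by
    rw [← Real.log_mul (by positivity) (by positivity)]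
    congr 1
    field_simp
  have h2 : 1 - x / y ≤ Real.log (y / x) := by
    have := Real.one_sub_inv_le_log_of_pos (show 0 < y / x by positivity)
    rwa [inv_div] at this
  have h3 : 0 ≤ Real.log (c * x) := Real.log_nonneg hcx
  have h4 : y - x ≤ y * Real.log (y / x) := by
    have := mul_le_mul_of_nonneg_left h2 hy.le
    have e : y * (1 - x / y) = y - x := by field_simp
    linarith
  rw [h1]
  nlinarith

/-- the increment of the threshold pays for one step -/
lemma sched_step {R r : ℕ} (hr : r < R) :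
    rK r * (Real.cosh (1 / rK r) - 1)
      + 2 * (rK (r + 1) - rK r) * (Real.log (2 * (rK (r + 1) - rK r) / (1 / (2 * √(R : ℝ)))) - 1)
      ≤ rW R (r + 1) - rW R r := by
  have hr0 : (0 : ℝ) ≤ r := Nat.cast_nonneg r
  have hrR : (r : ℝ) + 1 ≤ R := by exact_mod_cast hr
  have hR0 : (0 : ℝ) < R := by linarith
  set K := rK r with hK
  set K' := rK (r + 1) with hK'
  have hK1 : 1 ≤ K := rK_one_le r
  have hK0 : 0 < K := by linarith
  have hKK : K < K' := rK_lt r
  have hKsq : K ^ 2 = r + 1 := by rw [hK]; unfold rK; exact Real.sq_sqrt (by positivity)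
  have hKsq' : K' ^ 2 = r + 2 := by
    rw [hK']; unfold rK; rw [Real.sq_sqrt (by positivity)]; push_cast; ring
  have hdiff : (K' - K) * (K' + K) = 1 := by nlinarith
  have hx0 : 0 < K' - K := by linarith
  have hx1 : K' - K ≤ 1 / (2 * K) := by
    rw [le_div_iff₀ (by positivity)]
    nlinarith
  set q := √(R : ℝ) with hq
  have hqsq : q ^ 2 = R := Real.sq_sqrt hR0.le
  have hq0 : 0 < q := Real.sqrt_pos.2 hR0
  -- `c x ≥ 1`
  have hcx : 1 ≤ (4 * q) * (K' - K) := by
    have h1 : K' + K ≤ 4 * q := by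
      have h2 : K' ≤ 2 * q := by
        apply le_of_sq_le_sq _ (by positivity)
        nlinarith
      linarith
    have h3 := mul_le_mul_of_nonneg_right h1 hx0.le
    linarith
  have hmono := xlog_mono (c := 4 * q) (x := K' - K) (y := 1 / (2 * K)) (by positivity) hx0 hx1 hcx
  have e1 : 2 * (K' - K) / (1 / (2 * q)) = (4 * q) * (K' - K) := by
    field_simp; ring
  rw [e1]
  -- the fourth root
  set u := √q / √K with hu
  have hsK : 0 < √K := Real.sqrt_pos.2 hK0
  have hsq : 0 < √q := Real.sqrt_pos.2 hq0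
  have hu0 : 0 < u := by positivity
  have hqK : q / K = u ^ 2 := by
    rw [hu, div_pow, Real.sq_sqrt hq0.le, Real.sq_sqrt hK0.le]
  have e2 : (4 * q) * (1 / (2 * K)) = 2 * u ^ 2 := by
    rw [← hqK]; field_simp; ring
  have hlog : Real.log (2 * u ^ 2) = Real.log 2 + 2 * Real.log u := by
    rw [Real.log_mul (by norm_num) (by positivity), Real.log_pow]; norm_num
  have hlu : Real.log u ≤ u / 2 - 1 + Real.log 2 := by
    have h1 := Real.log_le_sub_one_of_pos (show 0 < u / 2 by positivity)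
    rw [Real.log_div hu0.ne' (by norm_num)] at h1
    linarith
  have hl2 := Real.log_two_lt_d9
  have hmain : 2 * (K' - K) * (Real.log (4 * q * (K' - K)) - 1)
      ≤ (1 / K) * (Real.log 2 + 2 * Real.log u - 1) := by
    rw [e2, hlog] at hmono
    have e3 : 2 * (1 / (2 * K) * (Real.log 2 + 2 * Real.log u - 1))
        = (1 / K) * (Real.log 2 + 2 * Real.log u - 1) := by field_simp
    linarith
  have hcosh : K * (Real.cosh (1 / K) - 1) ≤ 3 / 4 * (1 / K) := by
    have h1 := cosh_le_aux (u := 1 / K) (by positivity) (by rw [div_le_one hK0]; exact hK1)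
    have h2 := mul_le_mul_of_nonneg_left h1 hK0.le
    have e : K * (3 / 4 * (1 / K) ^ 2) = 3 / 4 * (1 / K) := by field_simp
    linarith
  -- the increments
  have hsr : √((r : ℝ) + 1) = K := rfl
  have hcast : ((r + 1 : ℕ) : ℝ) = (r : ℝ) + 1 := by push_cast; ring
  have hinc1 : 1 / (2 * K) ≤ K - √(r : ℝ) := by
    have h1 : √(r : ℝ) ^ 2 = r := Real.sq_sqrt hr0
    have h2 : 0 ≤ √(r : ℝ) := Real.sqrt_nonneg _
    have h3 : √(r : ℝ) ≤ K := Real.sqrt_le_sqrt (by linarith)
    rw [div_le_iff₀ (by positivity)]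
    nlinarith
  have hinc2 : 1 / (4 * (√K) ^ 3) ≤ √K - √(√(r : ℝ)) := by
    have h1 : √(r : ℝ) ^ 2 = r := Real.sq_sqrt hr0
    have h2 : 0 ≤ √(r : ℝ) := Real.sqrt_nonneg _
    have h3 : √(√(r : ℝ)) ^ 2 = √(r : ℝ) := Real.sq_sqrt h2
    have h4 : 0 ≤ √(√(r : ℝ)) := Real.sqrt_nonneg _
    have h5 : √K ^ 2 = K := Real.sq_sqrt hK0.le
    have h6 : √(√(r : ℝ)) ≤ √K := Real.sqrt_le_sqrt (Real.sqrt_le_sqrt (by linarith))
    set y := √K
    set z := √(√(r : ℝ))
    have h7 : y ^ 4 - z ^ 4 = 1 := by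
      have e1 : y ^ 4 = K ^ 2 := by rw [← h5]; ring
      have e2 : z ^ 4 = r := by rw [← h1, ← h3]; ring
      rw [e1, e2, hKsq]; ring
    have h8 : y ^ 4 - z ^ 4 = (y - z) * ((y + z) * (y ^ 2 + z ^ 2)) := by ring
    have h9 : (y + z) * (y ^ 2 + z ^ 2) ≤ 4 * y ^ 3 := by
      have : (y + z) * (y ^ 2 + z ^ 2) ≤ (y + y) * (y ^ 2 + y ^ 2) := by
        apply mul_le_mul (by linarith) _ (by positivity) (by positivity)
        have := pow_le_pow_left₀ h4 h6 2
        linarith
      linarith [show (y + y) * (y ^ 2 + y ^ 2) = 4 * y ^ 3 by ring]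
    rw [div_le_iff₀ (by positivity)]
    have h10 := mul_le_mul_of_nonneg_left h9 (show 0 ≤ y - z by linarith)
    linarith
  have hW : rW R (r + 1) - rW R r = (K - √(r : ℝ)) + 4 * √q * (√K - √(√(r : ℝ))) := by
    unfold rW
    rw [hcast, hsr]
    ring
  rw [hW]
  have h5 : √K ^ 2 = K := Real.sq_sqrt hK0.le
  have hinc3 : (1 / K) * u ≤ 4 * √q * (√K - √(√(r : ℝ))) := by
    have h1 := mul_le_mul_of_nonneg_left hinc2 (show 0 ≤ 4 * √q by positivity)
    have e : 4 * √q * (1 / (4 * (√K) ^ 3)) = (1 / K) * u := by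
      rw [hu]
      nth_rewrite 2 [← h5]
      field_simp
    linarith
  have hinc4 : (1 / K) * (1 / 2) ≤ K - √(r : ℝ) := by
    have e : 1 / (2 * K) = (1 / K) * (1 / 2) := by field_simp
    linarith
  have hfin : (1 / K) * (3 / 4 + (Real.log 2 + 2 * Real.log u - 1)) ≤ (1 / K) * (1 / 2 + u) := by
    apply mul_le_mul_of_nonneg_left _ (by positivity)
    linarith
  linarith

/-- **second repair phase** -/
theorem P2 {m : ℕ} (R : ℕ) (hR : 1 ≤ R) (S : Fin m → ℤ) :
    Pb R S ≤ Real.exp 6 / R * ∑ k, Real.exp (-(S k : ℝ) / √((R : ℝ) + 1)) := by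
  have hR1 : (1 : ℝ) ≤ R := by exact_mod_cast hR
  have hR0 : (0 : ℝ) < R := by linarith
  have hq0 : 0 < √(R : ℝ) := Real.sqrt_pos.2 hR0
  have hqsq : √(R : ℝ) ^ 2 = R := Real.sq_sqrt hR0.le
  have hκ : (0 : ℝ) < 1 / (2 * √(R : ℝ)) := by positivity
  -- the supermartingale
  have h1 : ∀ S : Fin m → ℤ, Pb R S ≤ Phi (rK R) (rW R R) S / R := by
    apply Pb_bound (fun r S => Phi (rK r) (rW R r) S / R) 0 R (Nat.zero_le _)
    · intro S
      by_cases hS : ∃ k, S k < 0
      · obtain ⟨k, hk⟩ := hS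
        refine (Pb_le_one _ _).trans ?_
        rw [le_div_iff₀ hR0, one_mul]
        have hG : (R : ℝ) ≤ G (rK 0) (rW R 0) (S k) := by
          unfold G rK rW
          have hk' : (S k : ℝ) ≤ 0 := by exact_mod_cast hk.le
          simp only [Nat.cast_zero, zero_add, Real.sqrt_one, Real.sqrt_zero, mul_zero, add_zero,
            div_one]
          calc (R : ℝ) = Real.exp (Real.log R) := (Real.exp_log hR0).symm
            _ ≤ _ := Real.exp_le_exp.2 (by linarith)
        exact hG.trans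
          (Finset.single_le_sum (f := fun k => G (rK 0) (rW R 0) (S k))
            (fun _ _ => (G_pos _ _ _).le) (mem_univ k))
      · rw [Pb_zero_of_not S hS]
        exact div_nonneg (Phi_nonneg _ _ _) hR0.le
    · intro r _ hr S hlt
      rw [div_lt_one hR0] at hlt
      refine ⟨fun v => cho (co (rK r) (rW R r) S) v, ?_⟩
      have hK0 : 0 < rK r := lt_of_lt_of_le one_pos (rK_one_le r)
      have h := phase_one (K := rK r) (K' := rK (r + 1)) (W := rW R r) (W' := rW R (r + 1))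
        (κ := 1 / (2 * √(R : ℝ))) (M := R) hκ.le
        (by
          have : 1 / (2 * √(R : ℝ)) * √(R : ℝ) = 1 / 2 := by field_simp
          rw [this])
        (exp_step hK0 (rK_lt r) hκ (sched_step hr)) S hlt.le
      have e : (fun v => Phi (rK r) (rW R r) (move S (cho (co (rK r) (rW R r) S) v) v) / (R : ℝ))
          = fun v => (1 / (R : ℝ)) *
            Phi (rK r) (rW R r) (move S (cho (co (rK r) (rW R r) S) v) v) := by
        funext v; ring
      show Ex (fun v => Phi (rK r) (rW R r) (move S (cho (co (rK r) (rW R r) S) v) v) / (R : ℝ))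
        ≤ Phi (rK (r + 1)) (rW R (r + 1)) S / R
      rw [e, Ex_mul]
      calc 1 / (R : ℝ) * Ex (fun v => Phi (rK r) (rW R r)
            (move S (cho (co (rK r) (rW R r) S) v) v))
          ≤ 1 / (R : ℝ) * Phi (rK (r + 1)) (rW R (r + 1)) S :=
            mul_le_mul_of_nonneg_left h (by positivity)
        _ = _ := by ring
  refine (h1 S).trans ?_
  -- the threshold at the end
  have hWR : rW R R ≤ 6 * √((R : ℝ) + 1) := by
    unfold rW
    have h2 : √(R : ℝ) ≤ √((R : ℝ) + 1) := Real.sqrt_le_sqrt (by linarith)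
    have h3 : Real.log R ≤ √(R : ℝ) := by
      have h4 := Real.log_le_sub_one_of_pos (show 0 < √(R : ℝ) / 2 by positivity)
      rw [Real.log_div hq0.ne' (by norm_num)] at h4
      have h5 : Real.log (R : ℝ) = 2 * Real.log (√(R : ℝ)) := by
        nth_rewrite 1 [← hqsq]
        rw [Real.log_pow]; norm_num
      have := Real.log_two_lt_d9
      linarith
    have h4 : √(√(R : ℝ)) * √(√(R : ℝ)) = √(R : ℝ) := Real.mul_self_sqrt hq0.le
    nlinarith
  unfold Phi
  have hKR : 0 < rK R := lt_of_lt_of_le one_pos (rK_one_le R)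
  have h2 : ∀ k, G (rK R) (rW R R) (S k) ≤ Real.exp 6 * Real.exp (-(S k : ℝ) / √((R : ℝ) + 1)) := by
    intro k
    unfold G
    rw [← Real.exp_add]
    apply Real.exp_le_exp.2
    have e : (rW R R - (S k : ℝ)) / rK R = rW R R / rK R + -(S k : ℝ) / √((R : ℝ) + 1) := by
      unfold rK; ring
    rw [e]
    have : rW R R / rK R ≤ 6 := by
      rw [div_le_iff₀ hKR]; exact hWR
    linarith
  calc (∑ k, G (rK R) (rW R R) (S k)) / (R : ℝ)
      ≤ (∑ k, Real.exp 6 * Real.exp (-(S k : ℝ) / √((R : ℝ) + 1))) / (R : ℝ) :=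
        div_le_div_of_nonneg_right (Finset.sum_le_sum fun k _ => h2 k) hR0.le
    _ = _ := by rw [← Finset.mul_sum]; ring

end Pool.Agent.IPR
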